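import Pool.Agent.E8helper28.LN.Main
import Pool.Agent.E8helper28.LN.Rel
import Pool.Agent.E8helper28.GB.All

/-!
# Prime triples `p, p + 2 h, p + 6 h` and `p, p + 4 h, p + 6 h` for almost all `h`

Hardy and Littlewood predict the number of primes `p ≤ N` for which `p + a h` and `p + 6 h` are primes
(`a = 2`, `a = 4`); the problem is the case `h = 1`. The dilates of the two patterns form a family with
a single parameter `h ≤ N`. The second and third member of the triple are replaced by their sieve
models with the bound of the starting files for the uniformity of order three of the primes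
(`S_U3`, project GB), and one can weight the first member arbitrarily.
-/

set_option autoImplicit false

namespace Pool.Agent.Results.MP_c0d11e_nt.DilatedTriplesH28

open Finset

/-- The number of primes `p ≤ N` for which `p + a h` and `p + 6 h` are primes. -/
def triples (a h N : ℕ) : ℕ :=
  ((Icc 1 N).filter (fun p => p.Prime ∧ (p + a * h).Prime ∧ (p + 6 * h).Prime)).card

/-- The partial products `(9 / 2) ∏_{3 < p ≤ z} p ^ 2 (p - 3) / (p - 1) ^ 3` of the constant of the
problem. -/
noncomputable def Dz (z : ℕ) : ℝ :=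
  9 / 2 * ∏ p ∈ (Icc 5 z).filter Nat.Prime, ((p : ℝ) ^ 2 * (p - 3) / (p - 1) ^ 3)

/-- The arithmetical factor of the singular series: the product of `(p - 1) / (p - 3)` over the primes
`p > 3` which divide `h`, times `2` if `3` divides `h`. -/
noncomputable def G (h : ℕ) : ℝ :=
  (if 3 ∣ h then 2 else 1) * ∏ p ∈ h.primeFactors.filter (fun p => 3 < p), (((p : ℝ) - 1) / (p - 3))

/-- The weighted number of triples: the sum of `log p * log (p + a h) * log (p + 6 h)` over the primes
`p ≤ N` for which `p + a h` and `p + 6 h` are primes. -/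
noncomputable def weighted (a h N : ℕ) : ℝ :=
  ∑ p ∈ (Icc 1 N).filter (fun p => p.Prime ∧ (p + a * h).Prime ∧ (p + 6 * h).Prime),
    Real.log p * (Real.log ((p : ℝ) + (a * h : ℕ)) * Real.log ((p : ℝ) + (6 * h : ℕ)))

/-- The formula of Hardy and Littlewood for the shifts `a h` and `6 h` and the primes up to `N`. -/
def Holds (D ε : ℝ) (U N a h : ℕ) : Prop :=
  |weighted a h N - D * G h * N| ≤ N / Real.log N ^ U ∧
  |(triples a h N : ℝ) - D * G h * (N / Real.log N ^ 3)| ≤ ε * (D * G h * (N / Real.log N ^ 3))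

open Classical in
/-- The number of `n ≤ N` in `M` for which `n + a h` and `n + 6 h` are primes. -/
noncomputable def pairs (M : Set ℕ) (a h N : ℕ) : ℕ :=
  ((Icc 1 N).filter (fun n => n ∈ M ∧ (n + a * h).Prime ∧ (n + 6 * h).Prime)).card

open Classical in
/-- The number of `n ≤ N` in `M` for which `n + a h` and `n + 6 h` have no prime factor `p ≤ z`. -/
noncomputable def rough (z : ℕ) (M : Set ℕ) (a h N : ℕ) : ℕ :=
  ((Icc 1 N).filter (fun n => n ∈ M ∧ ∀ p : ℕ, p.Prime → p ≤ z → ¬ p ∣ n + a * h ∧ ¬ p ∣ n + 6 * h)).card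

/-- The product of `1 - 1 / p` over the primes `p ≤ z`. -/
noncomputable def V (z : ℕ) : ℝ := ∏ p ∈ (Icc 1 z).filter Nat.Prime, (1 - 1 / (p : ℝ))

/-- The prediction for the number of pairs: the number of pairs without small prime factors, times the
square of the probability `1 / (V(z) log N)` that such an integer is prime. -/
noncomputable def predicted (z : ℕ) (M : Set ℕ) (a h N : ℕ) : ℝ :=
  rough z M a h N / (V z * Real.log N) ^ 2

lemma holds_of (D ε : ℝ) (U N a h : ℕ) (H : Pool.Agent.E8helper28.LN.HL D ε U N a h) : Holds D ε U N a h := by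
  obtain ⟨h1, h2⟩ := H
  refine ⟨?_, ?_⟩
  · have e : weighted a h N = Pool.Agent.H373R2.T7.tupleCount (fun i => (Pool.Agent.E8helper28.LN.sh a h i : ℤ)) N := by
      rw [Pool.Agent.H560R3.GB.tupleCount_nat]
      unfold weighted
      refine sum_congr ?_ ?_
      · refine filter_congr fun p _ => ?_
        rw [Fin.forall_fin_two]
        rfl
      · intro p _
        rw [Fin.prod_univ_two]
        rfl
    rw [e]
    exact h1
  · have e : triples a h N = Pool.Agent.H560R3.GB.primeTuples (Pool.Agent.E8helper28.LN.sh a h) N := by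
      unfold triples Pool.Agent.H560R3.GB.primeTuples
      congr 1
      refine filter_congr fun p _ => ?_
      rw [Fin.forall_fin_two]
      rfl
    rw [e]
    exact h2

open Classical in
/-- Let `D` be the constant of the problem.

* For all `U` and `ε > 0` there is an `N₀` such that, for `N ≥ N₀`, the formula of Hardy and Littlewood
  holds for both patterns `0, 2 h, 6 h` and `0, 4 h, 6 h` and the primes up to `N`, for all but at most
  `N / log ^ U N` of the `h ≤ N`.
* For all `U`, `K` and `ε > 0` there is an `E₀` such that, for `E ≥ E₀`, for large `N` and for every set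
  `M` of natural numbers, the number of `n ∈ M`, `n ≤ N`, for which `n + a h` and `n + 6 h` are primes
  is the predicted one (with `z = log ^ E N`), with an error of at most `ε` times the prediction and
  `N / log ^ K N`, for both `a = 2` and `a = 4`, and for all but at most `N / log ^ U N` of the
  `h ≤ N`. -/
theorem result : ∃ D : ℝ, 0 < D ∧ Filter.Tendsto Dz Filter.atTop (nhds D) ∧
    (∀ (U : ℕ) (ε : ℝ), 0 < ε → ∃ N₀ : ℕ, ∀ N : ℕ, N₀ ≤ N →
      (((Icc 1 N).filter (fun h => ¬ (Holds D ε U N 2 h ∧ Holds D ε U N 4 h))).card : ℝ) ≤ N / Real.log N ^ U) ∧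
    (∀ (U K : ℕ) (ε : ℝ), 0 < ε → ∃ E₀ : ℕ, ∀ E : ℕ, E₀ ≤ E → ∃ N₀ : ℕ, ∀ N : ℕ, N₀ ≤ N → ∀ M : Set ℕ,
      (((Icc 1 N).filter (fun h => ¬ ∀ a : ℕ, a = 2 ∨ a = 4 →
        |(pairs M a h N : ℝ) - predicted ⌈Real.log N ^ E⌉₊ M a h N| ≤
          ε * predicted ⌈Real.log N ^ E⌉₊ M a h N + N / Real.log N ^ K)).card : ℝ) ≤ N / Real.log N ^ U) := by
  obtain ⟨D, hD0, hD⟩ := Pool.Agent.E8helper28.LN.const
  refine ⟨D, hD0, hD, fun U ε hε => ?_, fun U K ε hε => ?_⟩
  · obtain ⟨n1, h1⟩ := Pool.Agent.E8helper28.LN.hl Pool.Agent.E8helper28.GB.u3 D hD0 hD (U + 1) ε hε 2 (Or.inl rfl)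
    obtain ⟨n2, h2⟩ := Pool.Agent.E8helper28.LN.hl Pool.Agent.E8helper28.GB.u3 D hD0 hD (U + 1) ε hε 4 (Or.inr rfl)
    obtain ⟨n3, h3⟩ := Pool.Agent.H373R2.T7.ev_L' 2
    refine ⟨n1 + n2 + n3, fun N hN => ?_⟩
    have g1 := h1 N (by omega)
    have g2 := h2 N (by omega)
    have hL := h3 N (by omega)
    have hL0 : 0 < Real.log (N : ℝ) := by linarith
    have hsub : (Icc 1 N).filter (fun h => ¬ (Holds D ε U N 2 h ∧ Holds D ε U N 4 h)) ⊆
        (Icc 1 N).filter (fun h => ¬ Pool.Agent.E8helper28.LN.HL D ε (U + 1) N 2 h) ∪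
        (Icc 1 N).filter (fun h => ¬ Pool.Agent.E8helper28.LN.HL D ε (U + 1) N 4 h) := by
      intro h hh
      rw [mem_filter] at hh
      rw [mem_union, mem_filter, mem_filter]
      by_contra hcon
      push Not at hcon
      have hmono : ∀ a, Pool.Agent.E8helper28.LN.HL D ε (U + 1) N a h → Holds D ε U N a h := by
        intro a ha
        refine holds_of D ε U N a h ⟨ha.1.trans ?_, ha.2⟩
        apply div_le_div_of_nonneg_left (Nat.cast_nonneg _) (by positivity)
        exact pow_le_pow_right₀ (by linarith) (by omega)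
      exact hh.2 ⟨hmono 2 (hcon.1 hh.1), hmono 4 (hcon.2 hh.1)⟩
    refine le_trans (show _ ≤ _ by exact_mod_cast (card_le_card hsub).trans (card_union_le _ _)) ((add_le_add g1 g2).trans ?_)
    rw [pow_succ, ← mul_two, div_mul_eq_mul_div, div_le_div_iff₀ (by positivity) (by positivity)]
    have hp : 0 ≤ (N : ℝ) * Real.log N ^ U := by positivity
    nlinarith
  · obtain ⟨E₀, h0⟩ := Pool.Agent.E8helper28.LN.rel Pool.Agent.E8helper28.GB.u3 (U + 1) K ε hε
    refine ⟨E₀, fun E hE => ?_⟩
    obtain ⟨n1, h1⟩ := h0 E hE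
    obtain ⟨n3, h3⟩ := Pool.Agent.H373R2.T7.ev_L' 2
    refine ⟨n1 + n3, fun N hN M => ?_⟩
    have g1 := h1 N (by omega) M 2 (Or.inl rfl)
    have g2 := h1 N (by omega) M 4 (Or.inr rfl)
    have hL := h3 N (by omega)
    have hL0 : 0 < Real.log (N : ℝ) := by linarith
    have hsub : (Icc 1 N).filter (fun h => ¬ ∀ a : ℕ, a = 2 ∨ a = 4 →
        |(pairs M a h N : ℝ) - predicted ⌈Real.log N ^ E⌉₊ M a h N| ≤
          ε * predicted ⌈Real.log N ^ E⌉₊ M a h N + N / Real.log N ^ K) ⊆
        (Icc 1 N).filter (fun h => ¬ |(pairs M 2 h N : ℝ) - predicted ⌈Real.log N ^ E⌉₊ M 2 h N| ≤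
          ε * predicted ⌈Real.log N ^ E⌉₊ M 2 h N + N / Real.log N ^ K) ∪
        (Icc 1 N).filter (fun h => ¬ |(pairs M 4 h N : ℝ) - predicted ⌈Real.log N ^ E⌉₊ M 4 h N| ≤
          ε * predicted ⌈Real.log N ^ E⌉₊ M 4 h N + N / Real.log N ^ K) := by
      intro h hh
      rw [mem_filter] at hh
      rw [mem_union, mem_filter, mem_filter]
      by_contra hcon
      rw [not_or, not_and, not_and, not_not, not_not] at hcon
      apply hh.2
      rintro a (rfl | rfl)
      · exact hcon.1 hh.1
      · exact hcon.2 hh.1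
    refine le_trans (show _ ≤ _ by exact_mod_cast (card_le_card hsub).trans (card_union_le _ _)) ((add_le_add g1 g2).trans ?_)
    rw [pow_succ, ← mul_two, div_mul_eq_mul_div, div_le_div_iff₀ (by positivity) (by positivity)]
    have hp : 0 ≤ (N : ℝ) * Real.log N ^ U := by positivity
    nlinarith

end Pool.Agent.Results.MP_c0d11e_nt.DilatedTriplesH28
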